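import Mathlib
import Pool.Agent.Q190.VH5

/-!
# MP_1d6f1e_gt: components of the visual hull of `n` separated bodies in `ℝⁿ`

The assertion of Q1 is true, in every dimension, if the bodies are all closed (or all open), and it
is false for arbitrary (neither closed nor open) bodies in dimension three.
-/

set_option autoImplicit false

open Set Module

namespace Pool.Agent.Results.MP_1d6f1e_gt.VisualHullComponents

open Q190.VH (visualHull IsBody StrictlySeparated numComponents)

/-- (1) For every `n ≥ 1`, the visual hull of the union of `n` strictly separated bodies in `ℝⁿ`,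
all of them closed or all of them open, has exactly `n` connected components.
(2) There are three strictly separated bodies in `ℝ³` such that the visual hull of their union has
at least four connected components.
(3) Hence the assertion of Q1, for arbitrary bounded convex sets with nonempty interior, fails. -/
theorem result :
    (∀ n : ℕ, 1 ≤ n → ∀ S : Fin n → Set (EuclideanSpace ℝ (Fin n)), (∀ i, IsBody (S i)) →
      ((∀ i, IsClosed (S i)) ∨ ∀ i, IsOpen (S i)) → StrictlySeparated S →
      numComponents (visualHull (⋃ i, S i)) = n) ∧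
    (∃ S : Fin 3 → Set (EuclideanSpace ℝ (Fin 3)), (∀ i, IsBody (S i)) ∧ StrictlySeparated S ∧
      4 ≤ numComponents (visualHull (⋃ i, S i))) ∧
    ¬ ∀ n : ℕ, 1 ≤ n → ∀ S : Fin n → Set (EuclideanSpace ℝ (Fin n)), (∀ i, IsBody (S i)) →
      StrictlySeparated S → numComponents (visualHull (⋃ i, S i)) = n := by
  have h2 : ∃ S : Fin 3 → Set (EuclideanSpace ℝ (Fin 3)), (∀ i, IsBody (S i)) ∧
      StrictlySeparated S ∧ 4 ≤ numComponents (visualHull (⋃ i, S i)) :=
    ⟨Q190.VH.B, Q190.VH.B_body, Q190.VH.B_sep, Q190.VH.four_le⟩
  refine ⟨?_, h2, ?_⟩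
  · intro n hn S hS hco hsep
    obtain ⟨m, rfl⟩ : ∃ m, n = m + 1 := ⟨n - 1, by omega⟩
    have hne : ∀ i, (S i).Nonempty := fun i => (hS i).interior_nonempty.mono interior_subset
    refine Q190.VH.card_eq (by simp) (fun i => (hS i).convex) hne hsep ?_
    rcases hco with hc | ho
    · exact Q190.VH.tame_of_compact
        (fun i => Metric.isCompact_of_isClosed_isBounded (hc i) (hS i).bounded)
        (fun i => (hS i).convex) hne
    · exact Q190.VH.tame_of_open ho (fun i => (hS i).convex) hne
  · intro h
    obtain ⟨S, hS, hsep, h4⟩ := h2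
    have h3 := h 3 (by norm_num) S hS hsep
    rw [h3] at h4
    norm_cast at h4

end Pool.Agent.Results.MP_1d6f1e_gt.VisualHullComponents
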